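import Pool.Agent.Helper98.QR.StmtsE

/-!
# QR, row E07: the glueing of a regular pair
-/

namespace QRT

open QR SPR

noncomputable section

variable {V W : Type} {G : BGraph V} {G' : BGraph W}

theorem gp_b (h : RegP G G') (i : ℤ) : gluePt G G' (G'.b (1 - i)) = Sum.inl (G.b i) := by
  classical
  have hex : ∃ j : ℤ, G'.b (1 - j) = G'.b (1 - i) := ⟨i, rfl⟩
  unfold gluePt
  rw [dif_pos hex]
  exact congrArg Sum.inl ((h.glue _ _).2 hex.choose_spec)

theorem gp_n (w : W) (hw : w ∉ Set.range G'.b) : gluePt G G' w = Sum.inr w := by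
  classical
  unfold gluePt
  rw [dif_neg]
  rintro ⟨i, hi⟩
  exact hw ⟨1 - i, hi⟩

theorem mem_range' (w : W) (hw : w ∈ Set.range G'.b) : ∃ i : ℤ, w = G'.b (1 - i) := by
  obtain ⟨j, rfl⟩ := hw
  exact ⟨1 - j, by congr 1; ring⟩

theorem gp_inj (h : RegP G G') {u v : W} (huv : gluePt G G' u = gluePt G G' v) : u = v := by
  by_cases hu : u ∈ Set.range G'.b
  · obtain ⟨i, rfl⟩ := mem_range' u hu
    by_cases hv : v ∈ Set.range G'.b
    · obtain ⟨j, rfl⟩ := mem_range' v hv
      rw [gp_b h, gp_b h] at huv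
      exact (h.glue i j).1 (Sum.inl_injective huv)
    · rw [gp_b h, gp_n v hv] at huv
      simp at huv
  · by_cases hv : v ∈ Set.range G'.b
    · obtain ⟨j, rfl⟩ := mem_range' v hv
      rw [gp_b h, gp_n u hu] at huv
      simp at huv
    · rw [gp_n u hu, gp_n v hv] at huv
      exact Sum.inr_injective huv

open Classical in
/-- the number of edges of the second graph which are kept -/
def kc (G' : BGraph W) (u v : W) : ℕ :=
  G'.c u v - (if ∃ i : ℤ, (G'.b i = u ∧ G'.b (i + 1) = v) ∨ (G'.b i = v ∧ G'.b (i + 1) = u)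
      then 1 else 0)

/-- the base part -/
def bs (G : BGraph V) (x y : V ⊕ W) : ℕ :=
  match x, y with
    | Sum.inl u, Sum.inl v => G.c u v
    | _, _ => 0

open Classical in
theorem glueC_eq (x y : V ⊕ W) : glueC G G' x y = bs G x y +
    ∑ᶠ (u : W) (v : W), if gluePt G G' u = x ∧ gluePt G G' v = y then kc G' u v else 0 := by
  unfold glueC kc bs
  rfl

theorem glueC_pt (h : RegP G G') (u v : W) :
    glueC G G' (gluePt G G' u) (gluePt G G' v) =
      bs G (gluePt G G' u) (gluePt G G' v) + kc G' u v := by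
  classical
  rw [glueC_eq]
  congr 1
  rw [finsum_eq_single _ u, finsum_eq_single _ v]
  · rw [if_pos ⟨rfl, rfl⟩]
  · intro v' hv'
    rw [if_neg]
    rintro ⟨-, h2⟩
    exact hv' (gp_inj h h2)
  · intro u' hu'
    rw [finsum_eq_zero_of_forall_eq_zero]
    intro v'
    rw [if_neg]
    rintro ⟨h1, -⟩
    exact hu' (gp_inj h h1)

theorem glueC_left (x y : V ⊕ W) (hx : ∀ u, gluePt G G' u ≠ x) : glueC G G' x y = bs G x y := by
  classical
  rw [glueC_eq, finsum_eq_zero_of_forall_eq_zero, add_zero]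
  intro u
  rw [finsum_eq_zero_of_forall_eq_zero]
  intro v
  rw [if_neg]
  rintro ⟨h1, -⟩
  exact hx u h1

theorem glueC_right (x y : V ⊕ W) (hy : ∀ u, gluePt G G' u ≠ y) : glueC G G' x y = bs G x y := by
  classical
  rw [glueC_eq, finsum_eq_zero_of_forall_eq_zero, add_zero]
  intro u
  rw [finsum_eq_zero_of_forall_eq_zero]
  intro v
  rw [if_neg]
  rintro ⟨-, h2⟩
  exact hy v h2

theorem kc_symm (h : RegP G G') (u v : W) : kc G' u v = kc G' v u := by
  classical
  unfold kc
  rw [h.symm2 u v]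
  congr 1
  have : (∃ i : ℤ, (G'.b i = u ∧ G'.b (i + 1) = v) ∨ (G'.b i = v ∧ G'.b (i + 1) = u)) ↔
      (∃ i : ℤ, (G'.b i = v ∧ G'.b (i + 1) = u) ∨ (G'.b i = u ∧ G'.b (i + 1) = v)) :=
    exists_congr fun i => or_comm
  simp only [this]

theorem bs_symm (h : RegP G G') (x y : V ⊕ W) : bs G x y = bs G y x := by
  rcases x with u | u <;> rcases y with v | v
  · exact h.symm1 u v
  · rfl
  · rfl
  · rfl

theorem glueC_symm (h : RegP G G') (x y : V ⊕ W) : glueC G G' x y = glueC G G' y x := by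
  by_cases hx : ∃ u, gluePt G G' u = x
  · obtain ⟨u, rfl⟩ := hx
    by_cases hy : ∃ v, gluePt G G' v = y
    · obtain ⟨v, rfl⟩ := hy
      rw [glueC_pt h, glueC_pt h, kc_symm h, bs_symm h]
    · push Not at hy
      rw [glueC_right _ _ hy, glueC_left _ _ hy, bs_symm h]
  · push Not at hx
    rw [glueC_left _ _ hx, glueC_right _ _ hx, bs_symm h]

theorem not_pt_inl (h : RegP G G') (v : V) (hv : v ∉ Set.range G.b) (u : W) :
    gluePt G G' u ≠ Sum.inl v := by
  intro he
  by_cases hu : u ∈ Set.range G'.b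
  · obtain ⟨i, rfl⟩ := mem_range' u hu
    rw [gp_b h] at he
    exact hv ⟨i, Sum.inl_injective he⟩
  · rw [gp_n u hu] at he
    simp at he

theorem not_pt_inr (h : RegP G G') (w : W) (hw : w ∈ Set.range G'.b) (u : W) :
    gluePt G G' u ≠ Sum.inr w := by
  intro he
  by_cases hu : u ∈ Set.range G'.b
  · obtain ⟨i, rfl⟩ := mem_range' u hu
    rw [gp_b h] at he
    simp at he
  · rw [gp_n u hu] at he
    exact hu (by rw [Sum.inr_injective he]; exact hw)

theorem glueC_fin (h : RegP G G') (x : V ⊕ W) : (Function.support (glueC G G' x)).Finite := by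
  -- base part
  have hb : (Function.support (bs (W := W) G x)).Finite := by
    rcases x with u | u
    · refine ((h.fin1 u).image (Sum.inl : V → V ⊕ W)).subset ?_
      rintro (v | v) hv
      · exact ⟨v, hv, rfl⟩
      · exact absurd rfl hv
    · refine Set.finite_empty.subset ?_
      rintro (v | v) hv
      · exact hv rfl
      · exact hv rfl
  by_cases hx : ∃ u, gluePt G G' u = x
  · obtain ⟨u, rfl⟩ := hx
    refine (hb.union ((h.fin2 u).image (gluePt G G'))).subset ?_
    intro y hy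
    by_cases hy' : ∃ v, gluePt G G' v = y
    · obtain ⟨v, rfl⟩ := hy'
      by_cases h0 : bs G (gluePt G G' u) (gluePt G G' v) = 0
      · right
        refine ⟨v, ?_, rfl⟩
        have h1 : glueC G G' (gluePt G G' u) (gluePt G G' v) ≠ 0 := hy
        rw [glueC_pt h, h0, zero_add] at h1
        intro h2
        apply h1
        unfold kc
        rw [h2]
        simp
      · left
        exact h0
    · push Not at hy'
      left
      have h1 : glueC G G' (gluePt G G' u) y ≠ 0 := hy
      rw [glueC_right _ _ hy'] at h1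
      exact h1
  · push Not at hx
    refine hb.subset ?_
    intro y hy
    have h1 : glueC G G' x y ≠ 0 := hy
    rw [glueC_left _ _ hx] at h1
    exact h1

theorem kc_n (u v : W) (hv : u ∉ Set.range G'.b) : kc G' u v = G'.c u v := by
  classical
  unfold kc
  rw [if_neg, Nat.sub_zero]
  rintro ⟨i, (⟨h1, h2⟩ | ⟨h1, h2⟩)⟩
  · exact hv ⟨i, h1⟩
  · exact hv ⟨i + 1, h2⟩

theorem kc_b (h : RegP G G') (i j : ℤ) :
    (∃ k : ℤ, (G'.b k = G'.b (1 - i) ∧ G'.b (k + 1) = G'.b (1 - j)) ∨
      (G'.b k = G'.b (1 - j) ∧ G'.b (k + 1) = G'.b (1 - i))) ↔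
      (G.b (i + 1) = G.b j ∨ G.b (j + 1) = G.b i) := by
  constructor
  · rintro ⟨k, (⟨h1, h2⟩ | ⟨h1, h2⟩)⟩
    · right
      -- b' (1 - i + 1) = b' (k + 1) = b' (1 - j)
      have e := h.per2 k (1 - i) 1 h1
      have e2 : G'.b (1 - (i - 1)) = G'.b (1 - j) := by
        rw [← h2, e]
        congr 1
        ring
      have e3 := (h.glue (i - 1) j).2 e2
      have e4 := h.per1 (i - 1) j 1 e3
      rw [sub_add_cancel] at e4
      exact e4.symm
    · left
      have e := h.per2 k (1 - j) 1 h1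
      have e2 : G'.b (1 - (j - 1)) = G'.b (1 - i) := by
        rw [← h2, e]
        congr 1
        ring
      have e3 := (h.glue (j - 1) i).2 e2
      have e4 := h.per1 (j - 1) i 1 e3
      rw [sub_add_cancel] at e4
      exact e4.symm
  · rintro (h1 | h1)
    · refine ⟨1 - j, Or.inr ⟨rfl, ?_⟩⟩
      have e := h.per1 (i + 1) j (-1) h1
      have e2 : G.b i = G.b (j - 1) := by
        have : i + 1 + -1 = i := by ring
        rw [this] at e
        exact e
      have e3 := (h.glue i (j - 1)).1 e2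
      rw [e3]
      congr 1
      ring
    · refine ⟨1 - i, Or.inl ⟨rfl, ?_⟩⟩
      have e := h.per1 (j + 1) i (-1) h1
      have e2 : G.b j = G.b (i - 1) := by
        have : j + 1 + -1 = j := by ring
        rw [this] at e
        exact e
      have e3 := (h.glue j (i - 1)).1 e2
      rw [e3]
      congr 1
      ring

end

end QRT

open QRT in
theorem QR.st_E07 : QR.ST_E07 := by
  classical
  intro V W G G' h
  refine ⟨gp_b h, gp_n, glueC_symm h, glueC_fin h, ?_, ?_, ?_, ?_, ?_, ?_, ?_⟩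
  · intro u v
    rw [glueC_eq]
    exact Nat.le_add_right _ _
  · intro w hw x
    rw [glueC_left _ _ (not_pt_inr h w hw)]
    rcases x with x | x <;> rfl
  · intro w w' hw hw'
    have h1 := glueC_pt h w w'
    rw [gp_n w hw, gp_n w' hw', kc_n w w' hw] at h1
    rw [h1]
    exact Nat.zero_add _
  · intro i w hw
    have h1 := glueC_pt h (G'.b (1 - i)) w
    rw [gp_b h, gp_n w hw, kc_symm h, kc_n w _ hw] at h1
    rw [h1, h.symm2 w]
    exact Nat.zero_add _
  · intro u w hu
    rw [glueC_left _ _ (not_pt_inl h u hu)]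
    rfl
  · intro u v hu
    rw [glueC_left _ _ (not_pt_inl h u hu)]
    rfl
  · intro i j
    have h1 := glueC_pt h (G'.b (1 - i)) (G'.b (1 - j))
    rw [gp_b h, gp_b h] at h1
    rw [h1]
    have h2 : bs (W := W) G (Sum.inl (G.b i)) (Sum.inl (G.b j)) = G.c (G.b i) (G.b j) := rfl
    rw [h2]
    congr 1
    unfold kc
    congr 1
    have h3 := kc_b h i j
    by_cases h4 : G.b (i + 1) = G.b j ∨ G.b (j + 1) = G.b i
    · rw [if_pos h4, if_pos (h3.2 h4)]
    · rw [if_neg h4, if_neg (fun h5 => h4 (h3.1 h5))]
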