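import Pool.Agent.Helper98.QR.StmtsE

/-!
# QR, row E12: multigraph facts for the disjoint union
-/

namespace QRT

open QR SPR

noncomputable section

variable {ι : Type} {V : ι → Type} (c : ∀ i, V i → V i → ℕ)

theorem sigC_same (i : ι) (u v : V i) : sigC c ⟨i, u⟩ ⟨i, v⟩ = c i u v := by
  unfold sigC
  simp

theorem sigC_ne (i j : ι) (u : V i) (v : V j) (h : i ≠ j) : sigC c ⟨i, u⟩ ⟨j, v⟩ = 0 := by
  unfold sigC
  simp [h]

theorem sigC_near (r : ℕ) (i : ι) (u : V i) : ∀ x : (Σ i, V i), Near (sigC c) r ⟨i, u⟩ x ↔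
    ∃ v : V i, x = ⟨i, v⟩ ∧ Near (c i) r u v := by
  induction r with
  | zero =>
    intro x
    simp only [Near]
    constructor
    · intro h; exact ⟨u, h.symm, rfl⟩
    · rintro ⟨v, rfl, rfl⟩; rfl
  | succ r ih =>
    intro x
    simp only [Near]
    constructor
    · rintro (h | ⟨z, h, hz⟩)
      · obtain ⟨v, rfl, hv⟩ := (ih x).1 h
        exact ⟨v, rfl, Or.inl hv⟩
      · obtain ⟨w, rfl, hw⟩ := (ih z).1 h
        obtain ⟨j, v⟩ := x
        by_cases hij : i = j
        · subst hij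
          rw [sigC_same] at hz
          exact ⟨v, rfl, Or.inr ⟨w, hw, hz⟩⟩
        · exact absurd (sigC_ne c i j w v hij) hz
    · rintro ⟨v, rfl, (h | ⟨w, hw, hz⟩)⟩
      · exact Or.inl ((ih _).2 ⟨v, rfl, h⟩)
      · refine Or.inr ⟨⟨i, w⟩, (ih _).2 ⟨w, rfl, hw⟩, ?_⟩
        rw [sigC_same]
        exact hz

theorem sigC_deg [Finite ι] [∀ i, Finite (V i)] (i : ι) (u : V i) :
    deg (sigC c) ⟨i, u⟩ = deg (c i) u := by
  classical
  have : Fintype ι := Fintype.ofFinite ι
  have : ∀ i, Fintype (V i) := fun i => Fintype.ofFinite _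
  unfold deg
  rw [finsum_eq_sum_of_fintype, finsum_eq_sum_of_fintype, Fintype.sum_sigma,
    Finset.sum_eq_single i]
  · exact Finset.sum_congr rfl fun v _ => sigC_same c i u v
  · intro j _ hj
    exact Finset.sum_eq_zero fun v _ => sigC_ne c i j u v (Ne.symm hj)
  · intro h
    exact absurd (Finset.mem_univ _) h

theorem sigC_ball (r : ℕ) (i : ι) (u : V i) (W : Type) (c' : W → W → ℕ) (x' : W) :
    BallIso r (sigC c) ⟨i, u⟩ c' x' ↔ BallIso r (c i) u c' x' := by
  let f : {v // Near (c i) r u v} → {x // Near (sigC c) r ⟨i, u⟩ x} :=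
    fun v => ⟨⟨i, v.1⟩, (sigC_near c r i u _).2 ⟨v.1, rfl, v.2⟩⟩
  have hf : Function.Bijective f := by
    constructor
    · intro v w h
      have h1 : (⟨i, v.1⟩ : Σ i, V i) = ⟨i, w.1⟩ := congrArg Subtype.val h
      have h2 := eq_of_heq (Sigma.mk.inj h1).2
      exact Subtype.ext h2
    · rintro ⟨x, hx⟩
      obtain ⟨v, rfl, hv⟩ := (sigC_near c r i u x).1 hx
      exact ⟨⟨v, hv⟩, rfl⟩
  let E := Equiv.ofBijective f hf
  have hE : ∀ v, E v = f v := fun v => rfl
  constructor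
  · rintro ⟨e, he1, he2⟩
    refine ⟨E.trans e, ?_, ?_⟩
    · intro h
      exact he1 _
    · intro v w
      have := he2 (E v) (E w)
      rw [hE, hE] at this
      have h3 : sigC c (f v).1 (f w).1 = c i v w := sigC_same c i v w
      rw [← h3, this]
      rfl
  · rintro ⟨e, he1, he2⟩
    refine ⟨E.symm.trans e, ?_, ?_⟩
    · intro h
      have h1 : Near (c i) r u u := by
        obtain ⟨v, hv, hv2⟩ := (sigC_near c r i u _).1 h
        have := eq_of_heq (Sigma.mk.inj hv).2
        rw [← this] at hv2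
        exact hv2
      have h2 : E.symm ⟨⟨i, u⟩, h⟩ = ⟨u, h1⟩ := by
        rw [Equiv.symm_apply_eq]
        rfl
      rw [Equiv.trans_apply, h2]
      exact he1 h1
    · intro x y
      obtain ⟨v, rfl⟩ := E.surjective x
      obtain ⟨w, rfl⟩ := E.surjective y
      simp only [Equiv.trans_apply, Equiv.symm_apply_apply]
      rw [← he2 v w]
      exact sigC_same c i v w

end

end QRT

theorem QR.st_E12 : QR.ST_E12 := by
  intro ι _ V _ c
  exact ⟨QRT.sigC_same c, QRT.sigC_ne c, QRT.sigC_near c, QRT.sigC_deg c, QRT.sigC_ball c⟩
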