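import Pool.Agent.Helper12.QR.FinalT0
import Pool.Agent.Helper3.QR.T07
import Pool.Agent.Helper88.QR.FinalB

/-!
# Block T of QR complete: the number of quadrangulations with a general boundary
-/

namespace QR

/-- Tutte's inequality -/
theorem t07 : ST_T07 := st_T07 st_T04S st_T05S st_T06S

/-- the number of rooted quadrangulations with `N` inner faces and a general boundary of length
`2 P` -/
theorem t09 : ST_T09 := t09_of st_B t07

end QR
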