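import Pool.Agent.Helper12.QR.Merge

/-!
# Block T of QR, row T03: upper bound for the number of quadrangulations from the codes
-/

namespace QRT

open Equiv Equiv.Perm QR

noncomputable section

theorem finite_rmap (D : Type) [Finite D] : Finite (RMap D) :=
  Finite.of_injective (β := Perm D × Perm D) (fun m => (m.rot, m.opp)) (by
    intro m m' h
    have h1 := congrArg Prod.fst h
    have h2 := congrArg Prod.snd h
    exact RMap.ext h1 h2)

theorem cor_shift (t : LT) : ∀ (k l s : ℤ), t.cor k (l + s) = t.cor (k - s) l := by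
  induction t with
  | nil =>
    intro k l s
    simp only [LT.cor]
    by_cases h : l + s = k
    · rw [if_pos h, if_pos (by omega)]
    · rw [if_neg h, if_neg (by omega)]
  | cons δ c t ihc iht =>
    intro k l s
    have e : LT.ch (l + s) δ = LT.ch l δ + s := by unfold LT.ch; ring
    simp only [LT.cor, e, ihc, iht]
    by_cases h : l + s = k
    · rw [if_pos h, if_pos (by omega)]
    · rw [if_neg h, if_neg (by omega)]

theorem cor_zero (t : LT) : ∀ (k l : ℤ), k ≤ 0 → 1 ≤ l → t.ge 1 l → t.cor k l = 0 := by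
  induction t with
  | nil =>
    intro k l hk hl _
    simp only [LT.cor]
    rw [if_neg (by omega)]
  | cons δ c t ihc iht =>
    intro k l hk hl h
    obtain ⟨h1, h2, h3⟩ := h
    simp only [LT.cor]
    rw [if_neg (by omega), ihc k _ hk h1 h2, iht k l hk hl h3]

variable {P : ℕ}

theorem dn_congr {b b' : ℤ → ℤ} {s : ℤ} (h : ∀ i, b' i = b i + s) : dn P b' = dn P b := by
  unfold dn
  refine Finset.filter_congr fun i _ => ?_
  rw [h, h]
  constructor <;> intro h' <;> omega

theorem shift_le {c c' : Code P} {s : ℤ} (hb : ∀ i, c'.b i = c.b i + s) (ht : ∀ i, c'.t i = c.t i)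
    (hc : c.Pos) (hc' : 1 ≤ c'.cor 1) : s ≤ 0 := by
  by_contra hs
  push Not at hs
  have : c'.cor 1 = 0 := by
    unfold Code.cor
    rw [dn_congr hb]
    refine Finset.sum_eq_zero fun i hi => ?_
    have h1 : c.b (i + 1) = c.b i - 1 := by
      unfold dn at hi
      exact (Finset.mem_filter.1 hi).2
    obtain ⟨h2, h3⟩ := hc i h1
    rw [hb, ht, cor_shift]
    exact cor_zero _ _ _ (by omega) h2 h3
  omega

/-- the walk is moved to height `0` at time `0` -/
def sh (c : Code P) : Code P where
  b := fun i => c.b i - c.b 0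
  t := c.t
  step := by
    intro i
    rcases c.step i with h | h
    · left; rw [h]; ring
    · right; rw [h]; ring
  up := by
    intro i h
    exact c.up i (by linarith)
  per_b := by intro i; rw [c.per_b]
  per_t := c.per_t

theorem sh_size (c : Code P) : (sh c).size = c.size := by
  unfold Code.size
  rw [dn_congr (b := c.b) (b' := (sh c).b) (s := - c.b 0) (fun i => by simp [sh]; ring)]
  rfl

theorem sh_inj {c c' : Code P} (h : sh c = sh c') (hc : c.Pos) (hc' : c'.Pos) (h1 : 1 ≤ c.cor 1)
    (h1' : 1 ≤ c'.cor 1) : c = c' := by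
  have hb : ∀ i, c.b i - c.b 0 = c'.b i - c'.b 0 := fun i => congrFun (congrArg Code.b h) i
  have ht : (sh c).t = (sh c').t := congrArg Code.t h
  have ht : c.t = c'.t := ht
  have e1 : c'.b 0 - c.b 0 ≤ 0 :=
    shift_le (c := c) (c' := c') (fun i => by linarith [hb i]) (fun i => by rw [ht]) hc h1'
  have e2 : c.b 0 - c'.b 0 ≤ 0 :=
    shift_le (c := c') (c' := c) (fun i => by linarith [hb i]) (fun i => by rw [ht]) hc' h1
  refine Code.ext ?_ ht
  funext i
  linarith [hb i]

theorem deg_pos {D : Type} [Finite D] (m : RMap D) (v : m.Vert) : 1 ≤ SPR.deg m.mult v := by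
  classical
  induction v using Quotient.inductionOn with
  | h d =>
  have : Fintype m.Vert := Fintype.ofFinite _
  unfold SPR.deg
  rw [finsum_eq_sum_of_fintype]
  have h1 : 1 ≤ m.mult (m.tail d) (m.tail (m.opp d)) := by
    unfold RMap.mult
    have : Nonempty {d' : D // m.tail d' = m.tail d ∧ m.tail (m.opp d') = m.tail (m.opp d)} :=
      ⟨⟨d, rfl, rfl⟩⟩
    exact Nat.card_pos
  exact h1.trans (Finset.single_le_sum (f := fun y => m.mult (m.tail d) y) (fun _ _ => Nat.zero_le _)
    (Finset.mem_univ (m.tail (m.opp d))))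

theorem uu_pos (N P : ℕ) : 0 < uu N P := by
  unfold uu
  positivity

end

end QRT

namespace QR

open QRT in
theorem st_T03 (hB : ST_B) (h1 : ST_T01) (h2 : ST_T02) : ST_T03 := by
  classical
  intro N P hP
  obtain ⟨κ, hsize, hpos, -, -, hcor, -, hfib⟩ := hB N P hP
  have hcard1 := h1 N P hP
  have hu := uu_pos N P
  set n := (4 * N + 2 * P).factorial with hn
  have : Finite (RMap (Fin (4 * N + 2 * P))) := finite_rmap _
  have hfinC : Finite {c : Code P // c.b 0 = 0 ∧ c.size = N} := by
    refine Nat.finite_of_card_ne_zero fun h0 => ?_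
    rw [h0] at hcard1
    have : (0 : ℝ) < (N + P + 1) * uu N P := by positivity
    rw [← hcard1] at this
    simp at this
  have hc1 : ∀ y, 1 ≤ (κ y).cor 1 := fun y => by rw [hcor]; exact deg_pos _ _
  let g : (Σ x : {x // x ∈ GQ N P}, x.1.1.Vert) → {c : Code P // c.b 0 = 0 ∧ c.size = N} :=
    fun y => ⟨sh (κ y), by simp [sh], by rw [sh_size, hsize]⟩
  have hgf : ∀ c, Nat.card {y // g y = c} ≤ n := by
    intro c
    by_cases hne : Nonempty {y // g y = c}
    · obtain ⟨y0, hy0⟩ := hne
      refine le_trans ?_ (hfib (κ y0))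
      refine Nat.card_le_card_of_injective
        (fun y : {y // g y = c} => (⟨y.1, ?_⟩ : {y // κ y = κ y0})) ?_
      · have : sh (κ y.1) = sh (κ y0) := by
          have e := y.2.trans hy0.symm
          exact congrArg Subtype.val e
        exact sh_inj this (hpos _) (hpos _) (hc1 _) (hc1 _)
      · intro y y' h
        have h' := congrArg Subtype.val h
        exact Subtype.ext h'
    · rw [not_nonempty_iff] at hne
      simp
  have : Fintype {x // x ∈ GQ N P} := Fintype.ofFinite _
  have : Fintype {c : Code P // c.b 0 = 0 ∧ c.size = N} := Fintype.ofFinite _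
  have e1 : Nat.card (Σ x : {x // x ∈ GQ N P}, x.1.1.Vert) =
      Nat.card {x // x ∈ GQ N P} * (N + P + 1) := by
    rw [Nat.card_sigma, Finset.sum_congr rfl (fun x _ => (h2 _ x.1.1 x.1.2 N P hP x.2).1)]
    rw [Finset.sum_const, Finset.card_univ, ← Nat.card_eq_fintype_card, smul_eq_mul]
  have e2 : Nat.card (Σ x : {x // x ∈ GQ N P}, x.1.1.Vert) ≤
      Nat.card {c : Code P // c.b 0 = 0 ∧ c.size = N} * n := by
    rw [← Nat.card_congr (Equiv.sigmaFiberEquiv g), Nat.card_sigma]
    refine (Finset.sum_le_sum fun c _ => hgf c).trans ?_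
    rw [Finset.sum_const, Finset.card_univ, ← Nat.card_eq_fintype_card, smul_eq_mul]
  rw [e1] at e2
  have e3 : (Nat.card {x // x ∈ GQ N P} : ℝ) * (N + P + 1) ≤ ((N + P + 1) * uu N P) * n := by
    rw [← hcard1]
    exact_mod_cast e2
  have hpos' : (0 : ℝ) < N + P + 1 := by positivity
  have e4 : (Nat.card {x // x ∈ GQ N P} : ℝ) * (N + P + 1) ≤ (n * uu N P) * (N + P + 1) := by
    calc _ ≤ ((N + P + 1) * uu N P) * n := e3
      _ = _ := by ring
  exact le_of_mul_le_mul_right e4 hpos'

end QR
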