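import Pool.Agent.Helper12.QR.T04
import Pool.Agent.Helper3.QR.StT

/-!
# Block T of QR, rows T04S and T05S
-/

namespace QRT

open Equiv Equiv.Perm QR

noncomputable section

variable {D1 D2 : Type}

theorem wedge_rot_inl' (m1 : RMap D1) (m2 : RMap D2) (o1 : D1) (o2 : D2) (d : D1)
    (h : m1.rot d = o1) : (wedge m1 m2 o1 o2).rot (Sum.inl d) = Sum.inr o2 := by
  classical
  have : (wedge m1 m2 o1 o2).rot (Sum.inl d) =
      swap (Sum.inr o2) (Sum.inl o1) (Sum.inl (m1.rot d)) := by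
    rw [wedge_rot]; rfl
  rw [this, h]
  exact swap_apply_right _ _

/-- a hanging edge, strong form -/
theorem hangS [Finite D1] {m1 : RMap D1} {o1 : D1} {N1 P1 : ℕ} (h1 : m1.IsQuad o1 N1 P1) :
    ∃ m : RMap (D1 ⊕ Bool), m.IsQuad (Sum.inr true) N1 (P1 + 1) ∧
      m.opp (Sum.inr true) = Sum.inr false ∧ (∀ d, m.opp (Sum.inl d) = Sum.inl (m1.opp d)) ∧
      m.rot (Sum.inr false) = Sum.inl o1 ∧ m.rot (Sum.inr true) = Sum.inr true ∧
      (∀ d, m1.rot d ≠ o1 → m.rot (Sum.inl d) = Sum.inl (m1.rot d)) ∧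
      (∀ d, m1.rot d = o1 → m.rot (Sum.inl d) = Sum.inr false) := by
  refine ⟨wedge m1 edgeM o1 false, ?_, rfl, fun d => rfl, ?_, ?_, ?_, ?_⟩
  · have h := wedge_quad h1 (edgeM_quad false)
    refine quad_reroot (N := N1 + 0) h ?_
    classical
    rw [wedge_face]
    have hnf : ¬ (Perm.sumCongr m1.face edgeM.face).SameCycle (Sum.inr false) (Sum.inl o1) :=
      same_inr_inl _ _ _ _
    rw [same_merge hnf]
    refine Or.inl ((same_inr_inr _ _ _ _).2 ?_)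
    rw [edgeM_face]
    exact same_boolNot _ _
  · exact wedge_rot_inr' _ _ _ _ _ rfl
  · exact wedge_rot_inr _ _ _ _ _ (by decide)
  · intro d hd
    exact wedge_rot_inl _ _ _ _ _ hd
  · intro d hd
    exact wedge_rot_inl' _ _ _ _ _ hd

end

end QRT

namespace QR

theorem st_T05S : ST_T05S := by
  refine ⟨fun D1 _ m1 o1 N1 P1 _ h1 => ⟨?_, QRT.hangS h1⟩, ?_⟩
  · refine ⟨QRT.wedge m1 QRT.edgeM o1 true, QRT.wedge_quad h1 (QRT.edgeM_quad true), rfl,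
      fun d => rfl, ?_, ?_, ?_, ?_⟩
    · exact QRT.wedge_rot_inr' _ _ _ _ _ rfl
    · exact QRT.wedge_rot_inr _ _ _ _ _ (by decide)
    · intro d hd
      exact QRT.wedge_rot_inl _ _ _ _ _ hd
    · intro d hd
      exact QRT.wedge_rot_inl' _ _ _ _ _ hd
  · exact ⟨QRT.edgeM, QRT.edgeM_quad true, rfl, rfl, rfl⟩

theorem st_T04S : ST_T04S := by
  intro D1 D2 _ _ m1 m2 o1 o2 N1 P1 N2 P2 _ _ h1 h2
  obtain ⟨m, hm, ho, ho', hr1, hr2, hr3, hr4⟩ := QRT.hangS h2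
  refine ⟨QRT.wedge m1 m o1 (Sum.inr true), ?_, ?_, fun d => rfl, ?_, ?_, ?_, ?_, ?_, ?_, ?_⟩
  · have h := QRT.wedge_quad h1 hm
    rwa [← add_assoc] at h
  · change Sum.inr (m.opp (Sum.inr true)) = _
    rw [ho]
  · intro d
    change Sum.inr (m.opp (Sum.inl d)) = _
    rw [ho']
  · exact QRT.wedge_rot_inr' _ _ _ _ _ hr2
  · rw [QRT.wedge_rot_inr _ _ _ _ _ (by rw [hr1]; simp), hr1]
  · intro d hd
    exact QRT.wedge_rot_inl _ _ _ _ _ hd
  · intro d hd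
    rw [QRT.wedge_rot_inr _ _ _ _ _ (by rw [hr3 d hd]; simp), hr3 d hd]
  · intro d hd
    exact QRT.wedge_rot_inl' _ _ _ _ _ hd
  · intro d hd
    rw [QRT.wedge_rot_inr _ _ _ _ _ (by rw [hr4 d hd]; simp), hr4 d hd]

end QR
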