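import Pool.Agent.Helper12.QR.Merge
import Pool.Agent.Helper3.QR.StT

/-!
# Row T06: adding a root edge which cuts off a face of degree four
-/

namespace QRT6

open QR QRT Equiv Equiv.Perm

theorem cyc_card_le {D : Type} [Finite D] (f : Perm D) (o : D) (k : ℕ) (hk : 0 < k)
    (h : (f ^ k) o = o) : Nat.card {d // f.SameCycle o d} ≤ k := by
  have h1 : ∀ n : ℕ, (f ^ n) o = (f ^ (n % k)) o := by
    intro n
    have h2 : ((f ^ k) ^ (n / k)) o = o := pow_apply_eq_self_of_apply_eq_self h _
    calc (f ^ n) o = (f ^ (n % k + k * (n / k))) o := by rw [Nat.mod_add_div]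
      _ = (f ^ (n % k)) (((f ^ k) ^ (n / k)) o) := by rw [pow_add, pow_mul]; rfl
      _ = _ := by rw [h2]
  let F : Fin k → {d // f.SameCycle o d} := fun j =>
    ⟨(f ^ (j : ℕ)) o, sameCycle_iff_pow.2 ⟨j, rfl⟩⟩
  have hF : Function.Surjective F := by
    rintro ⟨d, hd⟩
    obtain ⟨n, rfl⟩ := sameCycle_iff_pow.1 hd
    refine ⟨⟨n % k, Nat.mod_lt _ hk⟩, ?_⟩
    apply Subtype.ext
    exact (h1 n).symm
  have h3 := Nat.card_le_card_of_surjective F hF
  rw [Nat.card_eq_fintype_card (α := Fin k), Fintype.card_fin] at h3
  exact h3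

theorem st_T06S : ST_T06S := by
  classical
  intro D1 _ m1 o1 N1 P1 hP hq
  set f : Perm D1 := m1.face with hf
  have hout : Nat.card {d // f.SameCycle o1 d} = 2 * P1 := hq.outer
  have hne : ∀ k : ℕ, 0 < k → k < 4 → (f ^ k) o1 ≠ o1 := by
    intro k hk hk4 h
    have := cyc_card_le f o1 k hk h
    omega
  have hne' : ∀ j k : ℕ, j < k → k < 4 → (f ^ j) o1 ≠ (f ^ k) o1 := by
    intro j k hjk hk4 h
    have h1 : (f ^ k) o1 = (f ^ j) ((f ^ (k - j)) o1) := by
      have : k = j + (k - j) := by omega
      conv_lhs => rw [this, pow_add]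
      rfl
    rw [h1] at h
    exact hne (k - j) (by omega) (by omega) ((f ^ j).injective h).symm
  set o3 : D1 := (f ^ 3) o1 with ho3
  have h13 : o1 ≠ o3 := fun h => hne 3 (by norm_num) (by norm_num) h.symm
  let e : D1 ⊕ Bool := Sum.inr true
  let e' : D1 ⊕ Bool := Sum.inr false
  have hee' : e ≠ e' := fun h => by
    have := Sum.inr_injective h
    exact absurd this (by decide)
  let nt : Perm Bool := swap true false
  have nt1 : nt true = false := swap_apply_left _ _
  have nt2 : nt false = true := swap_apply_right _ _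
  let S0 : Perm (D1 ⊕ Bool) := Perm.sumCongr m1.rot 1
  let rot' : Perm (D1 ⊕ Bool) := swap (Sum.inl o3) e' * (swap (Sum.inl o1) e * S0)
  let opp' : Perm (D1 ⊕ Bool) := Perm.sumCongr m1.opp nt
  let m : RMap (D1 ⊕ Bool) :=
    { rot := rot'
      opp := opp'
      opp_opp := by
        rintro (d | b)
        · exact congrArg Sum.inl (m1.opp_opp d)
        · show Sum.inr (nt (nt b)) = Sum.inr b
          cases b
          · rw [nt2, nt1]
          · rw [nt1, nt2]
      opp_ne := by
        rintro (d | b) h
        · exact m1.opp_ne d (Sum.inl_injective h)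
        · have h1 : nt b = b := Sum.inr_injective h
          cases b
          · rw [nt2] at h1
            exact absurd h1 (by decide)
          · rw [nt1] at h1
            exact absurd h1 (by decide) }
  -- values of the rotation
  have r_inl : ∀ d, S0 (Sum.inl d) = Sum.inl (m1.rot d) := fun d => rfl
  have r_inr : ∀ b, S0 (Sum.inr b) = Sum.inr b := fun b => rfl
  have rot_e : rot' e = Sum.inl o1 := by
    show swap (Sum.inl o3) e' (swap (Sum.inl o1) e (S0 e)) = _
    rw [r_inr, swap_apply_right, swap_apply_of_ne_of_ne]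
    · intro h
      exact h13 (Sum.inl_injective h)
    · exact Sum.inl_ne_inr
  have rot_e' : rot' e' = Sum.inl o3 := by
    show swap (Sum.inl o3) e' (swap (Sum.inl o1) e (S0 e')) = _
    rw [r_inr, swap_apply_of_ne_of_ne (Sum.inr_ne_inl) hee'.symm, swap_apply_right]
  have rot_d : ∀ d, m1.rot d ≠ o1 → m1.rot d ≠ o3 → rot' (Sum.inl d) = Sum.inl (m1.rot d) := by
    intro d h1 h2
    show swap (Sum.inl o3) e' (swap (Sum.inl o1) e (S0 (Sum.inl d))) = _
    rw [r_inl, swap_apply_of_ne_of_ne (a := (Sum.inl o1 : D1 ⊕ Bool)), swap_apply_of_ne_of_ne]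
    · intro h
      exact h2 (Sum.inl_injective h)
    · exact Sum.inl_ne_inr
    · intro h
      exact h1 (Sum.inl_injective h)
    · exact Sum.inl_ne_inr
  have rot_p1 : ∀ d, m1.rot d = o1 → rot' (Sum.inl d) = e := by
    intro d h
    show swap (Sum.inl o3) e' (swap (Sum.inl o1) e (S0 (Sum.inl d))) = _
    rw [r_inl, h, swap_apply_left, swap_apply_of_ne_of_ne (Sum.inr_ne_inl) hee']
  have rot_p3 : ∀ d, m1.rot d = o3 → rot' (Sum.inl d) = e' := by
    intro d h
    show swap (Sum.inl o3) e' (swap (Sum.inl o1) e (S0 (Sum.inl d))) = _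
    rw [r_inl, h, swap_apply_of_ne_of_ne (a := (Sum.inl o1 : D1 ⊕ Bool)), swap_apply_left]
    · intro h
      exact h13 (Sum.inl_injective h).symm
    · exact Sum.inl_ne_inr
  -- the faces
  let τ : Perm (D1 ⊕ Bool) := Perm.sumCongr f nt
  let φ1 : Perm (D1 ⊕ Bool) := swap (Sum.inl o1) e * τ
  have hφ : m.face = swap (Sum.inl o3) e' * φ1 := by
    have h1 : S0 * opp' = τ := by
      show Perm.sumCongr m1.rot 1 * Perm.sumCongr m1.opp nt = _
      rw [Perm.sumCongr_mul, one_mul]
      rfl
    calc m.face = rot' * opp' := rfl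
      _ = swap (Sum.inl o3) e' * (swap (Sum.inl o1) e * (S0 * opp')) := by
          simp only [rot', mul_assoc]
      _ = _ := by rw [h1]
  have hφ' : φ1 = swap (Sum.inl o3) e' * m.face := by
    rw [hφ, ← mul_assoc, swap_mul_self, one_mul]
  have f_e : m.face e = Sum.inl o3 := by
    show rot' (opp' e) = _
    have : opp' e = e' := congrArg Sum.inr nt1
    rw [this, rot_e']
  have f_e' : m.face e' = Sum.inl o1 := by
    show rot' (opp' e') = _
    have : opp' e' = e := congrArg Sum.inr nt2
    rw [this, rot_e]
  have f_d : ∀ d, f d ≠ o1 → f d ≠ o3 → m.face (Sum.inl d) = Sum.inl (f d) := fun d h1 h2 =>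
    rot_d (m1.opp d) h1 h2
  have f_p3 : ∀ d, f d = o3 → m.face (Sum.inl d) = e' := fun d h => rot_p3 (m1.opp d) h
  -- the cycle of `e'`
  let A : Set (D1 ⊕ Bool) := {e', Sum.inl o1, Sum.inl (f o1), Sum.inl (f (f o1))}
  have p2 : (f ^ 2) o1 = f (f o1) := rfl
  have p3 : o3 = f (f (f o1)) := rfl
  have d1 : f o1 ≠ o1 := hne 1 (by norm_num) (by norm_num)
  have d2 : f (f o1) ≠ o1 := hne 2 (by norm_num) (by norm_num)
  have d3 : f o1 ≠ o3 := hne' 1 3 (by norm_num) (by norm_num)
  have d4 : f (f o1) ≠ o3 := hne' 2 3 (by norm_num) (by norm_num)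
  have d5 : f (f o1) ≠ f o1 := fun h => d1 (f.injective h)
  have g1 : m.face (Sum.inl o1) = Sum.inl (f o1) := f_d o1 d1 d3
  have g2 : m.face (Sum.inl (f o1)) = Sum.inl (f (f o1)) := f_d (f o1) d2 d4
  have g3 : m.face (Sum.inl (f (f o1))) = e' := f_p3 (f (f o1)) rfl
  have hA1 : ∀ x ∈ A, m.face x ∈ A := by
    rintro x (rfl | rfl | rfl | rfl)
    · rw [f_e']
      simp [A]
    · rw [g1]
      simp [A]
    · rw [g2]
      simp [A]
    · rw [g3]
      simp [A]
  have hA : ∀ x, m.face.SameCycle e' x ↔ x ∈ A := by
    intro x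
    constructor
    · intro h
      exact mem_of_same hA1 h (by simp [A])
    · have s1 : m.face.SameCycle e' (Sum.inl o1) := by
        have := same_apply m.face e'
        rwa [f_e'] at this
      have s2 : m.face.SameCycle e' (Sum.inl (f o1)) := by
        have := same_apply m.face (Sum.inl o1)
        rw [g1] at this
        exact s1.trans this
      have s3 : m.face.SameCycle e' (Sum.inl (f (f o1))) := by
        have := same_apply m.face (Sum.inl (f o1))
        rw [g2] at this
        exact s2.trans this
      rintro (rfl | rfl | rfl | rfl)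
      · exact SameCycle.refl _ _
      · exact s1
      · exact s2
      · exact s3
  have hA4 : Nat.card {x // m.face.SameCycle e' x} = 4 := by
    have h1 : Nat.card {x // m.face.SameCycle e' x} = Nat.card A :=
      Nat.card_congr (Equiv.subtypeEquivRight hA)
    rw [h1]
    have h2 : A = (({e', Sum.inl o1, Sum.inl (f o1), Sum.inl (f (f o1))} :
      Finset (D1 ⊕ Bool)) : Set (D1 ⊕ Bool)) := by
      simp [A]
    rw [h2, Nat.card_eq_card_toFinset]
    rw [Finset.toFinset_coe]
    rw [Finset.card_insert_of_notMem, Finset.card_insert_of_notMem, Finset.card_insert_of_notMem,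
      Finset.card_singleton]
    · simp [d5.symm]
    · simp [d1.symm, d2.symm]
    · simp [e']
  have ho3A : (Sum.inl o3 : D1 ⊕ Bool) ∉ A := by
    simp [A, e', h13.symm, d3.symm, d4.symm]
  have hsplit : ¬ m.face.SameCycle (Sum.inl o3) e' := by
    intro h
    exact ho3A ((hA _).1 h.symm)
  have hmerge1 : ¬ τ.SameCycle (Sum.inl o1) e := same_inl_inr f nt o1 true
  have hne1 : ncyc (1 : Perm Bool) = 2 := by
    unfold ncyc
    have h1 : Function.Bijective
        (fun b : Bool => (Quotient.mk (SameCycle.setoid (1 : Perm Bool)) b)) := by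
      constructor
      · intro b b' h
        have h2 : (1 : Perm Bool).SameCycle b b' := Quotient.exact h
        exact sameCycle_one.1 h2
      · intro c
        exact Quotient.exists_rep c
    rw [← Nat.card_eq_of_bijective _ h1]
    simp
  have hnt : ncyc nt = 1 := by
    have h1 : ¬ (1 : Perm Bool).SameCycle true false := by
      rw [sameCycle_one]
      decide
    have h2 := card_merge h1
    rw [mul_one, hne1] at h2
    have h3 : ncyc nt + 1 = 2 := h2
    omega
  -- number of vertices
  have hV : ncyc rot' = ncyc m1.rot := by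
    have h0 : ncyc S0 = ncyc m1.rot + 2 := by
      rw [← hne1]
      exact card_sumCongr m1.rot 1
    have h1 : ¬ S0.SameCycle (Sum.inl o1) e := same_inl_inr m1.rot 1 o1 true
    have h2 := card_merge h1
    have h3 : ¬ (swap (Sum.inl o1) e * S0).SameCycle (Sum.inl o3) e' := by
      rw [same_merge h1]
      rintro (h | ⟨-, h | h⟩)
      · exact same_inl_inr m1.rot 1 o3 false h
      · exact same_inl_inr m1.rot 1 o1 false h
      · have h4 := (same_inr_inr m1.rot 1 true false).1 h
        rw [sameCycle_one] at h4
        exact absurd h4 (by decide)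
    have h4 := card_merge h3
    have h5 : ncyc rot' + 1 = ncyc (swap (Sum.inl o1) e * S0) := h4
    omega
  have hF : ncyc m.face = ncyc f + 1 := by
    have h1 := card_merge hsplit
    rw [← hφ'] at h1
    have h2 := card_merge hmerge1
    have h3 : ncyc φ1 + 1 = ncyc τ := h2
    have h4 : ncyc τ = ncyc f + 1 := by
      rw [← hnt]
      exact card_sumCongr f nt
    omega
  -- cycles of the faces
  have same1 := fun x y => same_merge hsplit x y
  rw [← hφ'] at same1
  have same2 : ∀ x y, φ1.SameCycle x y ↔ τ.SameCycle x y ∨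
      ((τ.SameCycle (Sum.inl o1) x ∨ τ.SameCycle e x) ∧
        (τ.SameCycle (Sum.inl o1) y ∨ τ.SameCycle e y)) := fun x y => same_merge hmerge1 x y
  have t13 : τ.SameCycle (Sum.inl o1) (Sum.inl o3) :=
    (same_inl_inl f nt o1 o3).2 (sameCycle_iff_pow.2 ⟨3, rfl⟩)
  have te : ∀ b : Bool, τ.SameCycle e (Sum.inr b) := by
    intro b
    apply (same_inr_inr f nt true b).2
    cases b
    · have := same_apply nt true
      rwa [nt1] at this
    · exact SameCycle.refl _ _
  have fe3 : m.face.SameCycle e (Sum.inl o3) := by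
    have := same_apply m.face e
    rwa [f_e] at this
  have c1 : ({y | φ1.SameCycle (Sum.inl o3) y} : Set (D1 ⊕ Bool)) =
      {y | m.face.SameCycle (Sum.inl o3) y} ∪ {y | m.face.SameCycle e' y} := by
    ext y
    show φ1.SameCycle (Sum.inl o3) y ↔ m.face.SameCycle (Sum.inl o3) y ∨ m.face.SameCycle e' y
    rw [same1]
    constructor
    · rintro (h | ⟨-, h⟩)
      · exact Or.inl h
      · exact h
    · intro h
      exact Or.inr ⟨Or.inl (SameCycle.refl _ _), h⟩
  have c2 : ({y | φ1.SameCycle (Sum.inl o3) y} : Set (D1 ⊕ Bool)) =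
      {y | τ.SameCycle (Sum.inl o1) y} ∪ {y | τ.SameCycle e y} := by
    ext y
    show φ1.SameCycle (Sum.inl o3) y ↔ τ.SameCycle (Sum.inl o1) y ∨ τ.SameCycle e y
    rw [same2]
    constructor
    · rintro (h | ⟨-, h⟩)
      · exact Or.inl (t13.trans h)
      · exact h
    · intro h
      exact Or.inr ⟨Or.inl t13, h⟩
  have n1 : ({y | τ.SameCycle (Sum.inl o1) y} : Set (D1 ⊕ Bool)).ncard = 2 * P1 := by
    have h1 : ({y | τ.SameCycle (Sum.inl o1) y} : Set (D1 ⊕ Bool)) =
        Sum.inl '' {d | f.SameCycle o1 d} := by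
      ext y
      constructor
      · intro h
        rcases y with d | b
        · exact ⟨d, (same_inl_inl f nt o1 d).1 h, rfl⟩
        · exact absurd h (same_inl_inr f nt o1 b)
      · rintro ⟨d, hd, rfl⟩
        exact (same_inl_inl f nt o1 d).2 hd
    rw [h1, Set.ncard_image_of_injective _ Sum.inl_injective, ← hout]
    rfl
  have n2 : ({y | τ.SameCycle e y} : Set (D1 ⊕ Bool)).ncard = 2 := by
    have h1 : ({y | τ.SameCycle e y} : Set (D1 ⊕ Bool)) = {Sum.inr true, Sum.inr false} := by
      ext y
      constructor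
      · intro h
        rcases y with d | b
        · exact absurd h (same_inr_inl f nt d true)
        · cases b
          · exact Or.inr rfl
          · exact Or.inl rfl
      · rintro (rfl | rfl)
        · exact te true
        · exact te false
    rw [h1]
    exact Set.ncard_pair hee'
  have n3 : ({y | m.face.SameCycle e' y} : Set (D1 ⊕ Bool)).ncard = 4 := hA4
  have hdis1 : Disjoint ({y | τ.SameCycle (Sum.inl o1) y} : Set (D1 ⊕ Bool))
      {y | τ.SameCycle e y} := by
    rw [Set.disjoint_left]
    intro y h1 h2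
    exact hmerge1 (SameCycle.trans h1 (SameCycle.symm h2))
  have hdis2 : Disjoint ({y | m.face.SameCycle (Sum.inl o3) y} : Set (D1 ⊕ Bool))
      {y | m.face.SameCycle e' y} := by
    rw [Set.disjoint_left]
    intro y h1 h2
    exact hsplit (SameCycle.trans h1 (SameCycle.symm h2))
  have n4 : ({y | m.face.SameCycle (Sum.inl o3) y} : Set (D1 ⊕ Bool)).ncard = 2 * P1 - 2 := by
    have h1 := Set.ncard_union_eq hdis2 (Set.toFinite _) (Set.toFinite _)
    have h2 := Set.ncard_union_eq hdis1 (Set.toFinite _) (Set.toFinite _)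
    rw [← c1, n3] at h1
    rw [← c2, n1, n2] at h2
    omega
  refine ⟨m, ⟨⟨⟨e⟩, ?_, ?_⟩, ?_, ?_, ?_⟩, congrArg Sum.inr nt1, fun d => rfl, rot_e, rot_e', rot_d,
    rot_p1, rot_p3⟩
  · -- connected
    rw [conn_iff]
    intro X hX1 hX2 hX
    have hc1 := (conn_iff m1).1 hq.planar.2.1 {d | Sum.inl d ∈ X} (by
        intro d hd
        by_cases h1 : m1.rot d = o1
        · have h2 := hX1 _ hd
          have h3 : m.rot (Sum.inl d) = e := rot_p1 d h1
          rw [h3] at h2
          have h4 := hX1 _ h2
          have h5 : m.rot e = Sum.inl o1 := rot_e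
          rw [h5] at h4
          show Sum.inl (m1.rot d) ∈ X
          rw [h1]
          exact h4
        · by_cases h1' : m1.rot d = o3
          · have h2 := hX1 _ hd
            have h3 : m.rot (Sum.inl d) = e' := rot_p3 d h1'
            rw [h3] at h2
            have h4 := hX1 _ h2
            have h5 : m.rot e' = Sum.inl o3 := rot_e'
            rw [h5] at h4
            show Sum.inl (m1.rot d) ∈ X
            rw [h1']
            exact h4
          · have h2 := hX1 _ hd
            have h3 : m.rot (Sum.inl d) = Sum.inl (m1.rot d) := rot_d d h1 h1'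
            rw [h3] at h2
            exact h2) (by
        intro d hd
        exact hX2 _ hd) (by
        obtain ⟨x, hx⟩ := hX
        rcases x with d | b
        · exact ⟨d, hx⟩
        · cases b
          · have h4 := hX1 _ hx
            have h5 : m.rot e' = Sum.inl o3 := rot_e'
            rw [h5] at h4
            exact ⟨o3, h4⟩
          · have h4 := hX1 _ hx
            have h5 : m.rot e = Sum.inl o1 := rot_e
            rw [h5] at h4
            exact ⟨o1, h4⟩)
    have hin : ∀ d, (Sum.inl d : D1 ⊕ Bool) ∈ X := by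
      intro d
      have : d ∈ {d | (Sum.inl d : D1 ⊕ Bool) ∈ X} := by
        rw [hc1]
        exact Set.mem_univ _
      exact this
    have he : e ∈ X := by
      have h1 : m.rot (Sum.inl (m1.rot.symm o1)) = e := rot_p1 _ (m1.rot.apply_symm_apply o1)
      rw [← h1]
      exact hX1 _ (hin _)
    have he' : e' ∈ X := by
      have h1 : m.rot (Sum.inl (m1.rot.symm o3)) = e' := rot_p3 _ (m1.rot.apply_symm_apply o3)
      rw [← h1]
      exact hX1 _ (hin _)
    refine Set.eq_univ_of_forall ?_
    rintro (d | b)
    · exact hin d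
    · cases b
      · exact he'
      · exact he
  · have h1 : 2 * (ncyc m1.rot + ncyc f) = Nat.card D1 + 4 := hq.planar.2.2
    have h2 : Nat.card (D1 ⊕ Bool) = Nat.card D1 + 2 := by
      rw [Nat.card_sum]
      simp
    show 2 * (ncyc rot' + ncyc m.face) = Nat.card (D1 ⊕ Bool) + 4
    rw [hV, hF, h2]
    omega
  · show Nat.card {d' // m.face.SameCycle e d'} = _
    have h1 : Nat.card {d' // m.face.SameCycle e d'} =
        ({y | m.face.SameCycle (Sum.inl o3) y} : Set (D1 ⊕ Bool)).ncard := by
      apply Nat.card_congr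
      apply Equiv.subtypeEquivRight
      intro y
      exact ⟨fun h => fe3.symm.trans h, fun h => fe3.trans h⟩
    rw [h1, n4]
    omega
  · intro d hd
    have hd' : ¬ m.face.SameCycle e d := hd
    show Nat.card {d' // m.face.SameCycle d d'} = 4
    by_cases h1 : m.face.SameCycle e' d
    · rw [← hA4]
      apply Nat.card_congr
      apply Equiv.subtypeEquivRight
      intro y
      exact ⟨fun h => h1.trans h, fun h => h1.symm.trans h⟩
    · have h3 : ¬ m.face.SameCycle (Sum.inl o3) d := fun h => hd' (fe3.trans h)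
      have h4 : ∀ y, φ1.SameCycle d y ↔ m.face.SameCycle d y := by
        intro y
        rw [same1]
        constructor
        · rintro (h | ⟨h | h, -⟩)
          · exact h
          · exact absurd h h3
          · exact absurd h h1
        · exact fun h => Or.inl h
      have h5 : ¬ (τ.SameCycle (Sum.inl o1) d ∨ τ.SameCycle e d) := by
        intro h
        have h6 : φ1.SameCycle (Sum.inl o3) d := by
          rw [same2]
          exact Or.inr ⟨Or.inl t13, h⟩
        exact h3 ((h4 _).1 h6.symm).symm
      have h6 : ∀ y, φ1.SameCycle d y ↔ τ.SameCycle d y := by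
        intro y
        rw [same2]
        constructor
        · rintro (h | ⟨h, -⟩)
          · exact h
          · exact absurd h h5
        · exact fun h => Or.inl h
      rcases d with d | b
      · have h7 : ¬ f.SameCycle o1 d := fun h => h5 (Or.inl ((same_inl_inl f nt o1 d).2 h))
        have h8 : Nat.card {d' // f.SameCycle d d'} = 4 := hq.inner d h7
        have h9 : Nat.card {d' // m.face.SameCycle (Sum.inl d) d'} =
            ({y | τ.SameCycle (Sum.inl d) y} : Set (D1 ⊕ Bool)).ncard := by
          apply Nat.card_congr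
          apply Equiv.subtypeEquivRight
          intro y
          rw [← h4, h6]
          rfl
        have h10 : ({y | τ.SameCycle (Sum.inl d) y} : Set (D1 ⊕ Bool)) =
            Sum.inl '' {x | f.SameCycle d x} := by
          ext y
          constructor
          · intro h
            rcases y with x | b
            · exact ⟨x, (same_inl_inl f nt d x).1 h, rfl⟩
            · exact absurd h (same_inl_inr f nt d b)
          · rintro ⟨x, hx, rfl⟩
            exact (same_inl_inl f nt d x).2 hx
        rw [h9, h10, Set.ncard_image_of_injective _ Sum.inl_injective, ← h8]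
        rfl
      · exact absurd (Or.inr (te b)) h5
  · rw [Nat.card_sum, hq.card]
    simp
    omega

end QRT6

theorem QR.st_T06S : QR.ST_T06S := QRT6.st_T06S
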