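import Pool.Agent.Helper12.QR.T02
import Pool.Agent.Helper12.QR.T03
import Pool.Agent.Helper12.QR.T04S
import Pool.Agent.Helper12.QR.T06S
import Pool.Agent.Helper22.QR.T01
import Pool.Agent.Helper22.QR.T13
import Pool.Agent.Helper11.QR.T08
import Pool.Agent.Helper11.QR.T10
import Pool.Agent.Helper11.QR.T12
import Pool.Agent.Helper39.QR.T09
import Pool.Agent.Helper57.QR.T11

/-!
# Block T of QR, assembly (everything but T07)
-/

namespace QR

theorem t09_of (hB : ST_B) (h7 : ST_T07) : ST_T09 :=
  st_T09 (st_T03 hB QR22.st_T01 st_T02) h7 st_T08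

theorem t13 : ST_T13 := QR22.st_T13 st_T10 st_T11 st_T12

end QR
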