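import Pool.Agent.Helper98.QR.StmtsT

/-!
# Block T of QR: merging cycles, sums of permutations, connectivity by closed sets
-/

namespace QRT

open Equiv Equiv.Perm QR

noncomputable section

/-- number of cycles, fixed points included -/
def ncyc {S : Type} (σ : Perm S) : ℕ := Nat.card (Quotient (SameCycle.setoid σ))

/-! ## Merging two cycles -/

section merge

variable {S : Type} [Finite S]

theorem sameCycle_iff_pow {σ : Perm S} {x y : S} : σ.SameCycle x y ↔ ∃ n : ℕ, (σ ^ n) x = y := by
  constructor
  · intro h
    obtain ⟨n, hn⟩ := h.exists_pow_eq'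
    exact ⟨n, hn.2⟩
  · rintro ⟨n, rfl⟩
    exact ⟨n, by simp⟩

/-- a relation which is preserved by a permutation contains the cycles -/
theorem same_of_rel {σ : Perm S} {R : S → S → Prop} (hr : ∀ x, R x x)
    (ht : ∀ x y z, R x y → R y z → R x z) (h1 : ∀ x, R x (σ x)) {x y : S} (h : σ.SameCycle x y) :
    R x y := by
  obtain ⟨n, rfl⟩ := sameCycle_iff_pow.1 h
  induction n with
  | zero => exact hr _
  | succ n ih =>
    have : (σ ^ (n + 1)) x = σ ((σ ^ n) x) := by rw [pow_succ']; rfl
    rw [this]
    exact ht _ _ _ (ih ⟨n, by simp⟩) (h1 _)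

/-- a set which is closed under a permutation is closed under `SameCycle` -/
theorem mem_of_same {σ : Perm S} {A : Set S} (h1 : ∀ x ∈ A, σ x ∈ A) {x y : S}
    (h : σ.SameCycle x y) (hx : x ∈ A) : y ∈ A := by
  obtain ⟨n, rfl⟩ := sameCycle_iff_pow.1 h
  clear h
  induction n with
  | zero => exact hx
  | succ n ih =>
    have : (σ ^ (n + 1)) x = σ ((σ ^ n) x) := by rw [pow_succ']; rfl
    rw [this]
    exact h1 _ ih

omit [Finite S] in
theorem same_apply (σ : Perm S) (x : S) : σ.SameCycle x (σ x) := ⟨1, by simp⟩

variable [DecidableEq S]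

theorem merge_left {σ : Perm S} {a b : S} (hab : ¬ σ.SameCycle a b) {x : S}
    (hx : σ.SameCycle a x) : (swap a b * σ).SameCycle a x := by
  obtain ⟨n, rfl⟩ := sameCycle_iff_pow.1 hx
  clear hx
  induction n with
  | zero => exact SameCycle.refl _ _
  | succ n ih =>
    have e : (σ ^ (n + 1)) a = σ ((σ ^ n) a) := by rw [pow_succ']; rfl
    by_cases h1 : (σ ^ (n + 1)) a = a
    · rw [h1]
    · have h2 : (σ ^ (n + 1)) a ≠ b := fun h => hab (sameCycle_iff_pow.2 ⟨n + 1, h⟩)
      have h3 : (swap a b * σ) ((σ ^ n) a) = (σ ^ (n + 1)) a := by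
        rw [Perm.mul_apply, ← e, swap_apply_of_ne_of_ne h1 h2]
      rw [← h3]
      exact ih.trans (same_apply _ _)

theorem merge_right {σ : Perm S} {a b : S} (hab : ¬ σ.SameCycle a b) {x : S}
    (hx : σ.SameCycle b x) : (swap a b * σ).SameCycle b x := by
  rw [swap_comm]
  exact merge_left (fun h => hab h.symm) hx

theorem merge_mid {σ : Perm S} {a b : S} (hab : ¬ σ.SameCycle a b) :
    (swap a b * σ).SameCycle a b := by
  have h1 : (swap a b * σ).SameCycle a (σ⁻¹ a) := merge_left hab ⟨-1, by simp⟩
  have h2 : (swap a b * σ) (σ⁻¹ a) = b := by simp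
  have h3 := same_apply (swap a b * σ) (σ⁻¹ a)
  rw [h2] at h3
  exact h1.trans h3

/-- the cycles of `swap a b * σ` when `a`, `b` are in different cycles of `σ` -/
theorem same_merge {σ : Perm S} {a b : S} (hab : ¬ σ.SameCycle a b) (x y : S) :
    (swap a b * σ).SameCycle x y ↔ σ.SameCycle x y ∨
      ((σ.SameCycle a x ∨ σ.SameCycle b x) ∧ (σ.SameCycle a y ∨ σ.SameCycle b y)) := by
  constructor
  · intro h
    refine same_of_rel (R := fun x y => σ.SameCycle x y ∨
      ((σ.SameCycle a x ∨ σ.SameCycle b x) ∧ (σ.SameCycle a y ∨ σ.SameCycle b y)))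
      (fun x => Or.inl (SameCycle.refl _ _)) ?_ ?_ h
    · rintro x y z (h1 | ⟨h1, h1'⟩) (h2 | ⟨h2, h2'⟩)
      · exact Or.inl (h1.trans h2)
      · refine Or.inr ⟨?_, h2'⟩
        rcases h2 with h2 | h2
        · exact Or.inl (h2.trans h1.symm)
        · exact Or.inr (h2.trans h1.symm)
      · refine Or.inr ⟨h1, ?_⟩
        rcases h1' with h1' | h1'
        · exact Or.inl (h1'.trans h2)
        · exact Or.inr (h1'.trans h2)
      · exact Or.inr ⟨h1, h2'⟩
    · intro x
      rw [Perm.mul_apply]
      by_cases h1 : σ x = a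
      · right
        have hx : σ.SameCycle a x := by rw [← h1]; exact (same_apply σ x).symm
        refine ⟨Or.inl hx, Or.inr ?_⟩
        rw [h1, swap_apply_left]
      · by_cases h2 : σ x = b
        · right
          have hx : σ.SameCycle b x := by rw [← h2]; exact (same_apply σ x).symm
          refine ⟨Or.inr hx, Or.inl ?_⟩
          rw [h2, swap_apply_right]
        · rw [swap_apply_of_ne_of_ne h1 h2]
          exact Or.inl (same_apply σ x)
  · have key : ∀ z, (σ.SameCycle a z ∨ σ.SameCycle b z) → (swap a b * σ).SameCycle a z := by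
      rintro z (h | h)
      · exact merge_left hab h
      · exact (merge_mid hab).trans (merge_right hab h)
    rintro (h | ⟨h1, h2⟩)
    · by_cases hx : σ.SameCycle a x ∨ σ.SameCycle b x
      · have hy : σ.SameCycle a y ∨ σ.SameCycle b y := by
          rcases hx with hx | hx
          · exact Or.inl (hx.trans h)
          · exact Or.inr (hx.trans h)
        exact (key x hx).symm.trans (key y hy)
      · push Not at hx
        obtain ⟨n, rfl⟩ := sameCycle_iff_pow.1 h
        clear h
        have : ∀ n : ℕ, (((swap a b * σ) ^ n) x = (σ ^ n) x) := by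
          intro n
          induction n with
          | zero => rfl
          | succ n ih =>
            have e : (σ ^ (n + 1)) x = σ ((σ ^ n) x) := by rw [pow_succ']; rfl
            have e' : ((swap a b * σ) ^ (n + 1)) x = (swap a b * σ) (((swap a b * σ) ^ n) x) := by
              rw [pow_succ']; rfl
            have h1 : (σ ^ (n + 1)) x ≠ a := fun h =>
              hx.1 (SameCycle.symm (sameCycle_iff_pow.2 ⟨n + 1, h⟩))
            have h2 : (σ ^ (n + 1)) x ≠ b := fun h =>
              hx.2 (SameCycle.symm (sameCycle_iff_pow.2 ⟨n + 1, h⟩))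
            rw [e', ih, Perm.mul_apply, ← e, swap_apply_of_ne_of_ne h1 h2]
        rw [← this n]
        exact ⟨n, by simp⟩
    · exact (key x h1).symm.trans (key y h2)

theorem card_merge {σ : Perm S} {a b : S} (hab : ¬ σ.SameCycle a b) :
    ncyc (swap a b * σ) + 1 = ncyc σ := by
  classical
  unfold ncyc
  let q : S → Quotient (SameCycle.setoid σ) := fun x => Quotient.mk _ x
  let q' : S → Quotient (SameCycle.setoid (swap a b * σ)) := fun x => Quotient.mk _ x
  have hq : ∀ x y, q x = q y ↔ σ.SameCycle x y := fun x y => Quotient.eq (r := SameCycle.setoid σ)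
  have hq' : ∀ x y, q' x = q' y ↔ (swap a b * σ).SameCycle x y :=
    fun x y => Quotient.eq (r := SameCycle.setoid (swap a b * σ))
  let f : {c : Quotient (SameCycle.setoid σ) // c ≠ q b} →
      Quotient (SameCycle.setoid (swap a b * σ)) := fun c =>
    Quotient.lift (s := SameCycle.setoid σ) (fun x => q' x)
      (fun x y h => (hq' x y).2 ((same_merge hab x y).2 (Or.inl h))) c.1
  have hf : ∀ x (hx : q x ≠ q b), f ⟨q x, hx⟩ = q' x := fun x hx => rfl
  have hbij : Function.Bijective f := by
    constructor
    · rintro ⟨c, hc⟩ ⟨c', hc'⟩ h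
      induction c using Quotient.inductionOn with
      | h x =>
      induction c' using Quotient.inductionOn with
      | h y =>
      have h1 : q' x = q' y := h
      have h2 := (same_merge hab x y).1 ((hq' x y).1 h1)
      have hx : ¬ σ.SameCycle b x := fun h => hc ((hq x b).2 h.symm)
      have hy : ¬ σ.SameCycle b y := fun h => hc' ((hq y b).2 h.symm)
      have h3 : σ.SameCycle x y := by
        rcases h2 with h2 | ⟨h2 | h2, h3 | h3⟩
        · exact h2
        · exact h2.symm.trans h3
        · exact absurd h3 hy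
        · exact absurd h2 hx
        · exact absurd h2 hx
      exact Subtype.ext ((hq x y).2 h3)
    · intro c
      induction c using Quotient.inductionOn with
      | h x =>
      by_cases hx : q x = q b
      · refine ⟨⟨q a, fun h => hab ((hq a b).1 h)⟩, ?_⟩
        rw [hf]
        refine (hq' a x).2 ((same_merge hab a x).2 (Or.inr ⟨Or.inl (SameCycle.refl _ _), Or.inr ?_⟩))
        exact ((hq x b).1 hx).symm
      · exact ⟨⟨q x, hx⟩, hf x hx⟩
  have h1 := Nat.card_eq_of_bijective f hbij
  have hfin : Finite (Quotient (SameCycle.setoid σ)) := inferInstance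
  rw [← h1]
  have h2 : Nat.card (Quotient (SameCycle.setoid σ)) =
      Nat.card (Option {c : Quotient (SameCycle.setoid σ) // c ≠ q b}) := by
    refine Nat.card_congr ?_
    exact (optionSubtypeNe (q b)).symm
  rw [h2, Finite.card_option]

end merge

/-! ## Sums -/

section sum

variable {A B : Type}

theorem sumCongr_pow_inl (σ : Perm A) (τ : Perm B) (n : ℕ) (x : A) :
    ((Perm.sumCongr σ τ) ^ n) (Sum.inl x) = Sum.inl ((σ ^ n) x) := by
  induction n with
  | zero => rfl
  | succ n ih => rw [pow_succ', Perm.mul_apply, ih, pow_succ', Perm.mul_apply]; rfl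

theorem sumCongr_pow_inr (σ : Perm A) (τ : Perm B) (n : ℕ) (x : B) :
    ((Perm.sumCongr σ τ) ^ n) (Sum.inr x) = Sum.inr ((τ ^ n) x) := by
  induction n with
  | zero => rfl
  | succ n ih => rw [pow_succ', Perm.mul_apply, ih, pow_succ', Perm.mul_apply]; rfl

variable [Finite A] [Finite B]

theorem same_inl_inl (σ : Perm A) (τ : Perm B) (x y : A) :
    (Perm.sumCongr σ τ).SameCycle (Sum.inl x) (Sum.inl y) ↔ σ.SameCycle x y := by
  rw [sameCycle_iff_pow, sameCycle_iff_pow]
  simp only [sumCongr_pow_inl, Sum.inl.injEq]

theorem same_inr_inr (σ : Perm A) (τ : Perm B) (x y : B) :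
    (Perm.sumCongr σ τ).SameCycle (Sum.inr x) (Sum.inr y) ↔ τ.SameCycle x y := by
  rw [sameCycle_iff_pow, sameCycle_iff_pow]
  simp only [sumCongr_pow_inr, Sum.inr.injEq]

theorem same_inl_inr (σ : Perm A) (τ : Perm B) (x : A) (y : B) :
    ¬ (Perm.sumCongr σ τ).SameCycle (Sum.inl x) (Sum.inr y) := by
  rw [sameCycle_iff_pow]
  simp only [sumCongr_pow_inl]
  rintro ⟨n, hn⟩
  exact Sum.inl_ne_inr hn

theorem same_inr_inl (σ : Perm A) (τ : Perm B) (x : A) (y : B) :
    ¬ (Perm.sumCongr σ τ).SameCycle (Sum.inr y) (Sum.inl x) :=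
  fun h => same_inl_inr σ τ x y h.symm

theorem card_sumCongr (σ : Perm A) (τ : Perm B) :
    ncyc (Perm.sumCongr σ τ) = ncyc σ + ncyc τ := by
  unfold ncyc
  rw [← Nat.card_sum]
  symm
  let f : Quotient (SameCycle.setoid σ) ⊕ Quotient (SameCycle.setoid τ) →
      Quotient (SameCycle.setoid (Perm.sumCongr σ τ)) :=
    Sum.elim
      (Quotient.lift (s := SameCycle.setoid σ) (fun x => Quotient.mk _ (Sum.inl x))
        (fun x y h => Quotient.sound (s := SameCycle.setoid _) ((same_inl_inl σ τ x y).2 h)))
      (Quotient.lift (s := SameCycle.setoid τ) (fun x => Quotient.mk _ (Sum.inr x))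
        (fun x y h => Quotient.sound (s := SameCycle.setoid _) ((same_inr_inr σ τ x y).2 h)))
  refine Nat.card_eq_of_bijective f ⟨?_, ?_⟩
  · rintro (c | c) (c' | c') h
    · induction c using Quotient.inductionOn with
      | h x =>
      induction c' using Quotient.inductionOn with
      | h y =>
      have := Quotient.exact (s := SameCycle.setoid (Perm.sumCongr σ τ)) h
      exact congrArg Sum.inl (Quotient.sound (s := SameCycle.setoid σ)
        ((same_inl_inl σ τ x y).1 this))
    · induction c using Quotient.inductionOn with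
      | h x =>
      induction c' using Quotient.inductionOn with
      | h y =>
      have := Quotient.exact (s := SameCycle.setoid (Perm.sumCongr σ τ)) h
      exact absurd this (same_inl_inr σ τ x y)
    · induction c using Quotient.inductionOn with
      | h x =>
      induction c' using Quotient.inductionOn with
      | h y =>
      have := Quotient.exact (s := SameCycle.setoid (Perm.sumCongr σ τ)) h
      exact absurd this (same_inr_inl σ τ y x)
    · induction c using Quotient.inductionOn with
      | h x =>
      induction c' using Quotient.inductionOn with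
      | h y =>
      have := Quotient.exact (s := SameCycle.setoid (Perm.sumCongr σ τ)) h
      exact congrArg Sum.inr (Quotient.sound (s := SameCycle.setoid τ)
        ((same_inr_inr σ τ x y).1 this))
  · intro c
    induction c using Quotient.inductionOn with
    | h x =>
    rcases x with x | x
    · exact ⟨Sum.inl (Quotient.mk _ x), rfl⟩
    · exact ⟨Sum.inr (Quotient.mk _ x), rfl⟩

end sum

/-! ## Connectivity -/

/-- connectivity by closed sets -/
theorem conn_iff {D : Type} (m : RMap D) : m.Conn ↔
    ∀ A : Set D, (∀ d ∈ A, m.rot d ∈ A) → (∀ d ∈ A, m.opp d ∈ A) → A.Nonempty → A = Set.univ := by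
  constructor
  · intro h A h1 h2 ⟨d, hd⟩
    refine Set.eq_univ_of_forall fun d' => ?_
    have := h d d'
    induction this with
    | refl => exact hd
    | tail _ hs ih =>
      rcases hs with rfl | rfl
      · exact h1 _ ih
      · exact h2 _ ih
  · intro h d d'
    have := h {x | Relation.ReflTransGen (fun a b => b = m.rot a ∨ b = m.opp a) d x}
      (fun x hx => Relation.ReflTransGen.tail hx (Or.inl rfl))
      (fun x hx => Relation.ReflTransGen.tail hx (Or.inr rfl)) ⟨d, Relation.ReflTransGen.refl⟩
    have h1 : d' ∈ (Set.univ : Set D) := Set.mem_univ _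
    rw [← this] at h1
    exact h1

end

end QRT
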