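import Pool.Agent.Helper12.QR.Merge

/-!
# Block T of QR, row T02: number of faces and vertices of a quadrangulation with a boundary
-/

namespace QRT

open Equiv Equiv.Perm QR

noncomputable section

theorem card_fiber {D : Type} (m : RMap D) (d : D) :
    Nat.card {d' : D // m.fc d' = m.fc d} = m.fdeg d := by
  unfold RMap.fdeg
  refine Nat.card_congr (Equiv.subtypeEquivRight fun d' => ?_)
  constructor
  · intro h
    exact SameCycle.symm (Quotient.exact (s := SameCycle.setoid m.face) h)
  · intro h
    exact Quotient.sound (s := SameCycle.setoid m.face) h.symm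

theorem card_faces {D : Type} [Finite D] {m : RMap D} {o : D} {N P : ℕ} (h : m.IsQuad o N P) :
    Nat.card m.Face = N + 1 := by
  classical
  have : Fintype D := Fintype.ofFinite D
  have : Fintype m.Face := Fintype.ofFinite _
  have e1 : Nat.card D = ∑ f : m.Face, Nat.card {d : D // m.fc d = f} := by
    rw [← Nat.card_sigma]
    exact (Nat.card_congr (Equiv.sigmaFiberEquiv m.fc)).symm
  have e2 : ∀ f : m.Face, f ≠ m.fc o → Nat.card {d : D // m.fc d = f} = 4 := by
    intro f hf
    induction f using Quotient.inductionOn with
    | h x =>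
    have : Nat.card {d : D // m.fc d = m.fc x} = m.fdeg x := card_fiber m x
    refine this.trans (h.inner x fun h' => hf ?_)
    exact Quotient.sound (s := SameCycle.setoid m.face) h'.symm
  have e3 : Nat.card {d : D // m.fc d = m.fc o} = 2 * P := by rw [card_fiber, h.outer]
  rw [← Finset.add_sum_erase _ _ (Finset.mem_univ (m.fc o)), e3,
    Finset.sum_congr rfl (fun f hf => e2 f (Finset.ne_of_mem_erase hf)), Finset.sum_const,
    Finset.card_erase_of_mem (Finset.mem_univ _), Finset.card_univ, h.card,
    ← Nat.card_eq_fintype_card] at e1
  have e4 : 1 ≤ Nat.card m.Face := by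
    have : Nonempty m.Face := ⟨m.fc o⟩
    exact Nat.card_pos
  simp only [smul_eq_mul] at e1
  omega

end

end QRT

namespace QR

theorem st_T02 : ST_T02 := by
  intro D _ m o N P _ h
  have h1 := QRT.card_faces h
  have h2 := h.planar.2.2
  have h3 := h.card
  omega

end QR
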