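import Pool.Agent.Helper12.QR.Merge

/-!
# Block T of QR, rows T04 and T05: the wedge of two quadrangulations with a boundary
-/

namespace QRT

open Equiv Equiv.Perm QR

noncomputable section

/-- the map with a single edge -/
def edgeM : RMap Bool where
  rot := 1
  opp := Equiv.boolNot
  opp_opp := by intro d; cases d <;> rfl
  opp_ne := by intro d; cases d <;> simp [Equiv.boolNot]

theorem edgeM_face : edgeM.face = Equiv.boolNot := by
  ext d; cases d <;> rfl

theorem same_boolNot (x y : Bool) : (Equiv.boolNot : Perm Bool).SameCycle x y := by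
  by_cases h : x = y
  · rw [h]
  · refine ⟨1, ?_⟩
    cases x <;> cases y <;> simp_all [Equiv.boolNot]

theorem edgeM_quad (b : Bool) : edgeM.IsQuad b 0 1 := by
  have hf : ∀ x y, edgeM.face.SameCycle x y := by
    intro x y
    rw [edgeM_face]
    exact same_boolNot x y
  have hF : Nat.card edgeM.Face = 1 := by
    rw [Nat.card_eq_one_iff_unique]
    refine ⟨⟨fun x y => ?_⟩, ⟨edgeM.fc true⟩⟩
    induction x using Quotient.inductionOn with
    | h x =>
    induction y using Quotient.inductionOn with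
    | h y => exact Quotient.sound (s := SameCycle.setoid edgeM.face) (hf x y)
  have hV : Nat.card edgeM.Vert = 2 := by
    have : Nat.card Bool = Nat.card edgeM.Vert := by
      refine Nat.card_eq_of_bijective (fun x => edgeM.tail x) ⟨?_, ?_⟩
      · intro x y h
        have h1 := Quotient.exact (s := SameCycle.setoid edgeM.rot) h
        obtain ⟨n, hn⟩ := h1
        have : ((1 : Perm Bool) ^ n) x = y := hn
        simpa using this
      · intro c
        induction c using Quotient.inductionOn with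
        | h x => exact ⟨x, rfl⟩
    rw [← this]
    simp
  refine ⟨⟨⟨true⟩, ?_, ?_⟩, ?_, ?_, ?_⟩
  · rw [conn_iff]
    intro A _ h2 ⟨d, hd⟩
    have h3 : (!d) ∈ A := h2 d hd
    refine Set.eq_univ_of_forall fun x => ?_
    cases d <;> cases x <;> simp_all
  · rw [hF, hV]; simp
  · unfold RMap.fdeg
    have : Nat.card {d' : Bool // edgeM.face.SameCycle b d'} = Nat.card Bool :=
      Nat.card_congr (Equiv.subtypeUnivEquiv (fun x => hf b x))
    rw [this]; simp
  · intro d hd
    exact absurd (hf b d) hd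
  · simp

variable {D1 D2 : Type}

open Classical in
/-- two maps glued at a corner -/
def wedge (m1 : RMap D1) (m2 : RMap D2) (o1 : D1) (o2 : D2) : RMap (D1 ⊕ D2) where
  rot := swap (Sum.inr o2) (Sum.inl o1) * Perm.sumCongr m1.rot m2.rot
  opp := Perm.sumCongr m1.opp m2.opp
  opp_opp := by
    rintro (d | d)
    · simp [m1.opp_opp]
    · simp [m2.opp_opp]
  opp_ne := by
    rintro (d | d)
    · simpa using m1.opp_ne d
    · simpa using m2.opp_ne d

theorem wedge_rot [inst : DecidableEq (D1 ⊕ D2)] (m1 : RMap D1) (m2 : RMap D2) (o1 : D1) (o2 : D2) :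
    (wedge m1 m2 o1 o2).rot = swap (Sum.inr o2) (Sum.inl o1) * Perm.sumCongr m1.rot m2.rot := by
  unfold wedge
  simp only
  congr 2
  exact Subsingleton.elim _ _

theorem wedge_face [DecidableEq (D1 ⊕ D2)] (m1 : RMap D1) (m2 : RMap D2) (o1 : D1) (o2 : D2) :
    (wedge m1 m2 o1 o2).face = swap (Sum.inr o2) (Sum.inl o1) * Perm.sumCongr m1.face m2.face := by
  have e : (wedge m1 m2 o1 o2).face =
      (wedge m1 m2 o1 o2).opp.trans (wedge m1 m2 o1 o2).rot := rfl
  rw [e, wedge_rot]
  ext x
  rcases x with x | x <;> rfl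

/-- the root may be moved along the outer face -/
theorem quad_reroot {D : Type} {m : RMap D} {o o' : D} {N P : ℕ} (h : m.IsQuad o N P)
    (ho : m.face.SameCycle o o') : m.IsQuad o' N P := by
  refine ⟨h.planar, ?_, ?_, h.card⟩
  · rw [← h.outer]
    unfold RMap.fdeg
    refine Nat.card_congr (Equiv.subtypeEquivRight fun d => ?_)
    exact ⟨fun h => ho.trans h, fun h => ho.symm.trans h⟩
  · intro d hd
    exact h.inner d (fun h => hd (ho.symm.trans h))

theorem wedge_quad [Finite D1] [Finite D2] {m1 : RMap D1} {m2 : RMap D2} {o1 : D1} {o2 : D2}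
    {N1 P1 N2 P2 : ℕ} (h1 : m1.IsQuad o1 N1 P1) (h2 : m2.IsQuad o2 N2 P2) :
    (wedge m1 m2 o1 o2).IsQuad (Sum.inr o2) (N1 + N2) (P1 + P2) := by
  classical
  have hc : Nat.card (D1 ⊕ D2) = Nat.card D1 + Nat.card D2 := Nat.card_sum
  have hnr : ¬ (Perm.sumCongr m1.rot m2.rot).SameCycle (Sum.inr o2) (Sum.inl o1) :=
    same_inr_inl _ _ _ _
  have hnf : ¬ (Perm.sumCongr m1.face m2.face).SameCycle (Sum.inr o2) (Sum.inl o1) :=
    same_inr_inl _ _ _ _
  have er : (wedge m1 m2 o1 o2).rot =
      swap (Sum.inr o2) (Sum.inl o1) * Perm.sumCongr m1.rot m2.rot := wedge_rot _ _ _ _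
  have ef : (wedge m1 m2 o1 o2).face =
      swap (Sum.inr o2) (Sum.inl o1) * Perm.sumCongr m1.face m2.face := wedge_face _ _ _ _
  have hV : Nat.card (wedge m1 m2 o1 o2).Vert + 1 = Nat.card m1.Vert + Nat.card m2.Vert := by
    have e1 : Nat.card (wedge m1 m2 o1 o2).Vert = ncyc (wedge m1 m2 o1 o2).rot := rfl
    have e2 : Nat.card m1.Vert = ncyc m1.rot := rfl
    have e3 : Nat.card m2.Vert = ncyc m2.rot := rfl
    rw [e1, e2, e3, er, card_merge hnr, card_sumCongr]
  have hF : Nat.card (wedge m1 m2 o1 o2).Face + 1 = Nat.card m1.Face + Nat.card m2.Face := by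
    have e1 : Nat.card (wedge m1 m2 o1 o2).Face = ncyc (wedge m1 m2 o1 o2).face := rfl
    have e2 : Nat.card m1.Face = ncyc m1.face := rfl
    have e3 : Nat.card m2.Face = ncyc m2.face := rfl
    rw [e1, e2, e3, ef, card_merge hnf, card_sumCongr]
  refine ⟨⟨⟨Sum.inr o2⟩, ?_, ?_⟩, ?_, ?_, ?_⟩
  · rw [conn_iff]
    intro A hA1 hA2 hA3
    have hs : ∀ x y, (wedge m1 m2 o1 o2).rot.SameCycle x y → x ∈ A → y ∈ A :=
      fun x y h hx => mem_of_same hA1 h hx
    rw [er] at hs
    have key1 : {x | Sum.inl x ∈ A}.Nonempty → {x | Sum.inl x ∈ A} = Set.univ := by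
      intro hne
      refine (conn_iff m1).1 h1.planar.2.1 _ ?_ ?_ hne
      · intro d hd
        refine hs (Sum.inl d) (Sum.inl (m1.rot d)) ((same_merge hnr _ _).2 (Or.inl ?_)) hd
        exact (same_inl_inl _ _ _ _).2 (same_apply _ _)
      · intro d hd
        exact hA2 _ hd
    have key2 : {x | Sum.inr x ∈ A}.Nonempty → {x | Sum.inr x ∈ A} = Set.univ := by
      intro hne
      refine (conn_iff m2).1 h2.planar.2.1 _ ?_ ?_ hne
      · intro d hd
        refine hs (Sum.inr d) (Sum.inr (m2.rot d)) ((same_merge hnr _ _).2 (Or.inl ?_)) hd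
        exact (same_inr_inr _ _ _ _).2 (same_apply _ _)
      · intro d hd
        exact hA2 _ hd
    have link1 : Sum.inl o1 ∈ A → Sum.inr o2 ∈ A := hs _ _ (merge_mid hnr).symm
    have link2 : Sum.inr o2 ∈ A → Sum.inl o1 ∈ A := hs _ _ (merge_mid hnr)
    have u1 : ∀ x, Sum.inl x ∈ A := by
      obtain ⟨d, hd⟩ := hA3
      rcases d with d | d
      · have := key1 ⟨d, hd⟩
        intro x
        have hx : x ∈ (Set.univ : Set D1) := Set.mem_univ _
        rw [← this] at hx
        exact hx
      · have := key2 ⟨d, hd⟩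
        have ho : o2 ∈ (Set.univ : Set D2) := Set.mem_univ _
        rw [← this] at ho
        have := key1 ⟨o1, link2 ho⟩
        intro x
        have hx : x ∈ (Set.univ : Set D1) := Set.mem_univ _
        rw [← this] at hx
        exact hx
    have u2 : ∀ x, Sum.inr x ∈ A := by
      have := key2 ⟨o2, link1 (u1 o1)⟩
      intro x
      have hx : x ∈ (Set.univ : Set D2) := Set.mem_univ _
      rw [← this] at hx
      exact hx
    refine Set.eq_univ_of_forall fun x => ?_
    rcases x with x | x
    · exact u1 x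
    · exact u2 x
  · have e1 := h1.planar.2.2
    have e2 := h2.planar.2.2
    rw [hc]
    omega
  · unfold RMap.fdeg
    rw [ef]
    have e : Nat.card {d' : D1 ⊕ D2 // (swap (Sum.inr o2) (Sum.inl o1) *
        Perm.sumCongr m1.face m2.face).SameCycle (Sum.inr o2) d'} =
        Nat.card ({a : D1 // m1.face.SameCycle o1 a} ⊕ {b : D2 // m2.face.SameCycle o2 b}) := by
      refine Nat.card_congr ((Equiv.subtypeSum).trans (Equiv.sumCongr
        (Equiv.subtypeEquivRight fun d => ?_) (Equiv.subtypeEquivRight fun d => ?_)))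
      · rw [same_merge hnf]
        constructor
        · rintro (h | ⟨-, h | h⟩)
          · exact absurd h (same_inr_inl _ _ _ _)
          · exact absurd h (same_inr_inl _ _ _ _)
          · exact (same_inl_inl _ _ _ _).1 h
        · intro h
          exact Or.inr ⟨Or.inl (SameCycle.refl _ _), Or.inr ((same_inl_inl _ _ _ _).2 h)⟩
      · rw [same_merge hnf]
        constructor
        · rintro (h | ⟨-, h | h⟩)
          · exact (same_inr_inr _ _ _ _).1 h
          · exact (same_inr_inr _ _ _ _).1 h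
          · exact absurd h (same_inl_inr _ _ _ _)
        · intro h
          exact Or.inl ((same_inr_inr _ _ _ _).2 h)
    rw [e, Nat.card_sum]
    have e1 := h1.outer
    have e2 := h2.outer
    unfold RMap.fdeg at e1 e2
    rw [e1, e2]
    ring
  · intro d hd
    rw [ef] at hd
    rw [same_merge hnf] at hd
    push Not at hd
    unfold RMap.fdeg
    rw [ef]
    rcases d with d | d
    · have hd1 : ¬ m1.face.SameCycle o1 d := by
        intro h
        exact (hd.2 (Or.inl (SameCycle.refl _ _))).2 ((same_inl_inl _ _ _ _).2 h)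
      have e : Nat.card {d' : D1 ⊕ D2 // (swap (Sum.inr o2) (Sum.inl o1) *
          Perm.sumCongr m1.face m2.face).SameCycle (Sum.inl d) d'} =
          Nat.card ({a : D1 // m1.face.SameCycle d a} ⊕ {b : D2 // False}) := by
        refine Nat.card_congr ((Equiv.subtypeSum).trans (Equiv.sumCongr
          (Equiv.subtypeEquivRight fun x => ?_) (Equiv.subtypeEquivRight fun x => ?_)))
        · rw [same_merge hnf]
          constructor
          · rintro (h | ⟨h, -⟩)
            · exact (same_inl_inl _ _ _ _).1 h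
            · rcases h with h | h
              · exact absurd h (same_inr_inl _ _ _ _)
              · exact absurd ((same_inl_inl _ _ _ _).1 h) hd1
          · intro h
            exact Or.inl ((same_inl_inl _ _ _ _).2 h)
        · rw [same_merge hnf]
          constructor
          · rintro (h | ⟨h, -⟩)
            · exact absurd h (same_inl_inr _ _ _ _)
            · rcases h with h | h
              · exact absurd h (same_inr_inl _ _ _ _)
              · exact absurd ((same_inl_inl _ _ _ _).1 h) hd1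
          · intro h
            exact h.elim
      rw [e, Nat.card_sum]
      have e1 := h1.inner d hd1
      unfold RMap.fdeg at e1
      rw [e1]
      simp
    · have hd2 : ¬ m2.face.SameCycle o2 d := by
        intro h
        exact (hd.2 (Or.inl (SameCycle.refl _ _))).1 ((same_inr_inr _ _ _ _).2 h)
      have e : Nat.card {d' : D1 ⊕ D2 // (swap (Sum.inr o2) (Sum.inl o1) *
          Perm.sumCongr m1.face m2.face).SameCycle (Sum.inr d) d'} =
          Nat.card ({a : D1 // False} ⊕ {b : D2 // m2.face.SameCycle d b}) := by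
        refine Nat.card_congr ((Equiv.subtypeSum).trans (Equiv.sumCongr
          (Equiv.subtypeEquivRight fun x => ?_) (Equiv.subtypeEquivRight fun x => ?_)))
        · rw [same_merge hnf]
          constructor
          · rintro (h | ⟨h, -⟩)
            · exact absurd h (same_inr_inl _ _ _ _)
            · rcases h with h | h
              · exact absurd ((same_inr_inr _ _ _ _).1 h) hd2
              · exact absurd h (same_inl_inr _ _ _ _)
          · intro h
            exact h.elim
        · rw [same_merge hnf]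
          constructor
          · rintro (h | ⟨h, -⟩)
            · exact (same_inr_inr _ _ _ _).1 h
            · rcases h with h | h
              · exact absurd ((same_inr_inr _ _ _ _).1 h) hd2
              · exact absurd h (same_inl_inr _ _ _ _)
          · intro h
            exact Or.inl ((same_inr_inr _ _ _ _).2 h)
      rw [e, Nat.card_sum]
      have e1 := h2.inner d hd2
      unfold RMap.fdeg at e1
      rw [e1]
      simp
  · rw [hc, h1.card, h2.card]
    ring

theorem wedge_rot_inl (m1 : RMap D1) (m2 : RMap D2) (o1 : D1) (o2 : D2) (d : D1)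
    (h : m1.rot d ≠ o1) : (wedge m1 m2 o1 o2).rot (Sum.inl d) = Sum.inl (m1.rot d) := by
  classical
  have : (wedge m1 m2 o1 o2).rot (Sum.inl d) =
      swap (Sum.inr o2) (Sum.inl o1) (Sum.inl (m1.rot d)) := by
    rw [wedge_rot]; rfl
  rw [this]
  exact swap_apply_of_ne_of_ne (by simp) (fun h' => h (Sum.inl_injective h'))

theorem wedge_rot_inr (m1 : RMap D1) (m2 : RMap D2) (o1 : D1) (o2 : D2) (d : D2)
    (h : m2.rot d ≠ o2) : (wedge m1 m2 o1 o2).rot (Sum.inr d) = Sum.inr (m2.rot d) := by
  classical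
  have : (wedge m1 m2 o1 o2).rot (Sum.inr d) =
      swap (Sum.inr o2) (Sum.inl o1) (Sum.inr (m2.rot d)) := by
    rw [wedge_rot]; rfl
  rw [this]
  exact swap_apply_of_ne_of_ne (fun h' => h (Sum.inr_injective h')) (by simp)

theorem wedge_rot_inr' (m1 : RMap D1) (m2 : RMap D2) (o1 : D1) (o2 : D2) (d : D2)
    (h : m2.rot d = o2) : (wedge m1 m2 o1 o2).rot (Sum.inr d) = Sum.inl o1 := by
  classical
  have : (wedge m1 m2 o1 o2).rot (Sum.inr d) =
      swap (Sum.inr o2) (Sum.inl o1) (Sum.inr (m2.rot d)) := by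
    rw [wedge_rot]; rfl
  rw [this, h]
  exact swap_apply_left _ _

/-- T05, with the pieces needed for T04 -/
theorem hang [Finite D1] {m1 : RMap D1} {o1 : D1} {N1 P1 : ℕ} (h1 : m1.IsQuad o1 N1 P1) :
    ∃ m : RMap (D1 ⊕ Bool), m.IsQuad (Sum.inr true) N1 (P1 + 1) ∧
      m.opp (Sum.inr true) = Sum.inr false ∧ (∀ d, m.opp (Sum.inl d) = Sum.inl (m1.opp d)) ∧
      m.rot (Sum.inr false) = Sum.inl o1 ∧ m.rot (Sum.inr true) = Sum.inr true ∧
      (∀ d, m1.rot d ≠ o1 → m.rot (Sum.inl d) = Sum.inl (m1.rot d)) := by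
  refine ⟨wedge m1 edgeM o1 false, ?_, rfl, fun d => rfl, ?_, ?_, ?_⟩
  · have h := wedge_quad h1 (edgeM_quad false)
    refine quad_reroot (N := N1 + 0) h ?_
    classical
    rw [wedge_face]
    have hnf : ¬ (Perm.sumCongr m1.face edgeM.face).SameCycle (Sum.inr false) (Sum.inl o1) :=
      same_inr_inl _ _ _ _
    rw [same_merge hnf]
    refine Or.inl ((same_inr_inr _ _ _ _).2 ?_)
    rw [edgeM_face]
    exact same_boolNot _ _
  · exact wedge_rot_inr' _ _ _ _ _ rfl
  · exact wedge_rot_inr _ _ _ _ _ (by decide)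
  · intro d hd
    exact wedge_rot_inl _ _ _ _ _ hd

end

end QRT

namespace QR

theorem st_T05 : ST_T05 := by
  refine ⟨fun D1 _ m1 o1 N1 P1 _ h1 => ⟨?_, QRT.hang h1⟩, ?_⟩
  · refine ⟨QRT.wedge m1 QRT.edgeM o1 true, QRT.wedge_quad h1 (QRT.edgeM_quad true), rfl,
      fun d => rfl, ?_, ?_, ?_⟩
    · exact QRT.wedge_rot_inr' _ _ _ _ _ rfl
    · exact QRT.wedge_rot_inr _ _ _ _ _ (by decide)
    · intro d hd
      exact QRT.wedge_rot_inl _ _ _ _ _ hd
  · exact ⟨QRT.edgeM, QRT.edgeM_quad true, rfl, rfl, rfl⟩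

theorem st_T04 : ST_T04 := by
  intro D1 D2 _ _ m1 m2 o1 o2 N1 P1 N2 P2 _ _ h1 h2
  obtain ⟨m, hm, ho, ho', hr1, hr2, hr3⟩ := QRT.hang h2
  refine ⟨QRT.wedge m1 m o1 (Sum.inr true), ?_, ?_, fun d => rfl, ?_, ?_, ?_, ?_, ?_⟩
  · have h := QRT.wedge_quad h1 hm
    rwa [← add_assoc] at h
  · change Sum.inr (m.opp (Sum.inr true)) = _
    rw [ho]
  · intro d
    change Sum.inr (m.opp (Sum.inl d)) = _
    rw [ho']
  · exact QRT.wedge_rot_inr' _ _ _ _ _ hr2
  · rw [QRT.wedge_rot_inr _ _ _ _ _ (by rw [hr1]; simp), hr1]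
  · intro d hd
    exact QRT.wedge_rot_inl _ _ _ _ _ hd
  · intro d hd
    rw [QRT.wedge_rot_inr _ _ _ _ _ (by rw [hr3 d hd]; simp), hr3 d hd]

end QR
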